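import Mathlib

/-!
# If the power graph of `G₁` is isomorphic to the commuting graph of `G₂`, then
`Pow(G₁) = Com(G₁)`
-/

namespace Pool.Agent.Results.MP_2b7cf0_al.PowerCommuting

/-- The power graph: distinct `x`, `y` are adjacent iff one of them is a power of the other. -/
def powGraph (G : Type) [Group G] : SimpleGraph G where
  Adj x y := x ≠ y ∧ ((∃ m : ℤ, x = y ^ m) ∨ (∃ m : ℤ, y = x ^ m))
  symm := ⟨fun _ _ h => ⟨h.1.symm, h.2.symm⟩⟩
  loopless := ⟨fun _ h => h.1 rfl⟩

/-- The commuting graph: distinct `x`, `y` are adjacent iff they commute. -/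
def comGraph (G : Type) [Group G] : SimpleGraph G where
  Adj x y := x ≠ y ∧ x * y = y * x
  symm := ⟨fun _ _ h => ⟨h.1.symm, h.2.symm⟩⟩
  loopless := ⟨fun _ h => h.1 rfl⟩

open Subgroup

/-- power relation -/
def R {G : Type} [Group G] (x y : G) : Prop := x ∈ zpowers y ∨ y ∈ zpowers x

theorem R_symm {G : Type} [Group G] {x y : G} (h : R x y) : R y x := h.symm

theorem R_one {G : Type} [Group G] (y : G) : R 1 y := Or.inl (one_mem _)

theorem R_comm {G : Type} [Group G] {x y : G} (h : R x y) : x * y = y * x := by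
  rcases h with h | h
  · obtain ⟨n, rfl⟩ := mem_zpowers_iff.1 h
    exact (Commute.refl y).zpow_left n
  · obtain ⟨n, rfl⟩ := mem_zpowers_iff.1 h
    exact (Commute.refl x).zpow_right n

section

variable {G K : Type} [Group G] [Group K] [Finite G] [Finite K]

theorem exists_max (g : G) :
    ∃ g0 : G, g ∈ zpowers g0 ∧ ∀ h : G, g0 ∈ zpowers h → h ∈ zpowers g0 := by
  have : Nonempty {h : G // g ∈ zpowers h} := ⟨⟨g, mem_zpowers g⟩⟩
  obtain ⟨⟨g0, h0⟩, hmax⟩ := Finite.exists_max (fun h : {h : G // g ∈ zpowers h} => orderOf h.1)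
  refine ⟨g0, h0, fun h hh => ?_⟩
  have hle : zpowers g0 ≤ zpowers h := zpowers_le.2 hh
  have h1 := hmax ⟨h, hle h0⟩
  simp only at h1
  have : zpowers g0 = zpowers h := eq_of_le_of_card_ge hle (by
    rw [Nat.card_zpowers, Nat.card_zpowers]; exact h1)
  rw [this]
  exact mem_zpowers h

omit [Finite K] in
theorem mem_cent {x y : K} : y ∈ centralizer {x} ↔ x * y = y * x := by
  rw [mem_centralizer_iff]
  simp

/-- Step A: orders of elements are divisible by at most one prime. -/
theorem stepA (f : G ≃ K) (hf : ∀ x y, R x y ↔ f x * f y = f y * f x) (g : G) (p q : ℕ)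
    (hp : p.Prime) (hq : q.Prime) (hpg : p ∣ orderOf g) (hqg : q ∣ orderOf g) : p = q := by
  by_contra hpq
  obtain ⟨g0, hg0, hmax⟩ := exists_max g
  have hdvd : orderOf g ∣ orderOf g0 := by
    rw [← Nat.card_zpowers, ← Nat.card_zpowers]
    exact card_dvd_of_le (zpowers_le.2 hg0)
  have hp0 := hpg.trans hdvd
  have hq0 := hqg.trans hdvd
  set m := orderOf g0 with hm
  have hm0 : 0 < m := orderOf_pos g0
  let gens : Set G := {z | zpowers z = zpowers g0}
  have hgens : g0 ∈ gens := rfl
  -- structure of the sets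
  have hC : ∀ z : G, R z g0 ↔ z ∈ zpowers g0 := by
    intro z
    constructor
    · rintro (h | h)
      · exact h
      · exact hmax z h
    · exact Or.inl
  have hcard : ∀ r : ℕ, r.Prime → r ∣ m → r * Nat.card (zpowers (g0 ^ r)) = m := by
    intro r hr hrm
    rw [Nat.card_zpowers, orderOf_pow' _ hr.ne_zero, ← hm, Nat.gcd_eq_right hrm]
    exact Nat.mul_div_cancel' hrm
  have hA : ∀ r : ℕ, r.Prime → r ∣ m → ∀ z : G,
      (R z g0 ∧ R z (g0 ^ r)) ↔ z ∈ ((zpowers (g0 ^ r) : Set G) ∪ gens) := by
    intro r hr hrm z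
    constructor
    · rintro ⟨h1, h2⟩
      rw [hC] at h1
      rcases h2 with h2 | h2
      · exact Or.inl h2
      · have hle1 : zpowers (g0 ^ r) ≤ zpowers z := zpowers_le.2 h2
        have hle2 : zpowers z ≤ zpowers g0 := zpowers_le.2 h1
        obtain ⟨j, hj⟩ := card_dvd_of_le hle1
        obtain ⟨k, hk⟩ := card_dvd_of_le hle2
        have hcr := hcard r hr hrm
        have hm' : Nat.card (zpowers g0) = m := Nat.card_zpowers g0
        rw [hm', hj] at hk
        have hcpos : 0 < Nat.card (zpowers (g0 ^ r)) := Nat.card_pos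
        have hjk : r = j * k := by
          rw [← hcr] at hk
          have : Nat.card (zpowers (g0 ^ r)) * r = Nat.card (zpowers (g0 ^ r)) * (j * k) := by
            rw [mul_comm, hk, mul_assoc]
          exact Nat.eq_of_mul_eq_mul_left hcpos this
        rcases (Nat.Prime.eq_one_or_self_of_dvd hr j ⟨k, hjk⟩) with h | h
        · left
          rw [h, mul_one] at hj
          have := eq_of_le_of_card_ge hle1 (le_of_eq hj)
          show z ∈ zpowers (g0 ^ r)
          rw [this]; exact mem_zpowers z
        · right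
          have hk1 : k = 1 := by
            rw [h] at hjk
            have : r * 1 = r * k := by rw [mul_one]; exact hjk
            exact (Nat.eq_of_mul_eq_mul_left hr.pos this).symm
          refine eq_of_le_of_card_ge hle2 ?_
          rw [hm', hj, h, ← hcr, mul_comm]
    · rintro (h | h)
      · have h' : z ∈ zpowers (g0 ^ r) := h
        refine ⟨(hC z).2 ?_, Or.inl h'⟩
        have : zpowers (g0 ^ r) ≤ zpowers g0 := zpowers_le.2 (npow_mem_zpowers g0 r)
        exact this h'
      · have h' : zpowers z = zpowers g0 := h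
        refine ⟨(hC z).2 (h' ▸ mem_zpowers z), Or.inr ?_⟩
        rw [h']
        exact npow_mem_zpowers g0 r
  have hdisj : ∀ (r : ℕ), r.Prime → r ∣ m → Disjoint (zpowers (g0 ^ r) : Set G) gens := by
    intro r hr hrm
    rw [Set.disjoint_left]
    intro z hz1 hz2
    have h1 : zpowers z ≤ zpowers (g0 ^ r) := zpowers_le.2 hz1
    have h2 : zpowers z = zpowers g0 := hz2
    rw [h2] at h1
    have h3 := card_le_of_le h1
    have h4 := hcard r hr hrm
    rw [Nat.card_zpowers, ← hm] at h3
    have := hr.two_le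
    nlinarith
  -- the subgroups
  let A : ℕ → Subgroup K := fun r => centralizer {f g0} ⊓ centralizer {f (g0 ^ r)}
  have hAc : ∀ r : ℕ, r.Prime → r ∣ m →
      (A r : Set K) = f '' ((zpowers (g0 ^ r) : Set G) ∪ gens) := by
    intro r hr hrm
    ext k
    constructor
    · intro hk
      refine ⟨f.symm k, ?_, by simp⟩
      rw [← hA r hr hrm]
      have hk' : k ∈ centralizer {f g0} ∧ k ∈ centralizer {f (g0 ^ r)} := hk
      rw [mem_cent, mem_cent] at hk'
      refine ⟨?_, ?_⟩
      · rw [hf, Equiv.apply_symm_apply]; exact hk'.1.symm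
      · rw [hf, Equiv.apply_symm_apply]; exact hk'.2.symm
    · rintro ⟨z, hz, rfl⟩
      rw [← hA r hr hrm] at hz
      refine ⟨?_, ?_⟩
      · exact mem_cent.2 ((hf _ _).1 hz.1).symm
      · exact mem_cent.2 ((hf _ _).1 hz.2).symm
  have cardset : ∀ (P : Subgroup K) (S : Set G), (P : Set K) = f '' S →
      Nat.card P = S.ncard := by
    intro P S h
    have : Nat.card P = (P : Set K).ncard := rfl
    rw [this, h, Set.ncard_image_of_injective _ f.injective]
  have c1 := cardset (A p) _ (hAc p hp hp0)
  have c2 := cardset (A q) _ (hAc q hq hq0)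
  have c3 := cardset (A p ⊓ A q)
    ((((zpowers (g0 ^ p) ⊓ zpowers (g0 ^ q) : Subgroup G)) : Set G) ∪ gens) (by
      rw [coe_inf, hAc p hp hp0, hAc q hq hq0, ← Set.image_inter f.injective, coe_inf,
        Set.inter_union_distrib_right])
  have c4 : Nat.card (centralizer {f g0} : Subgroup K) = m := by
    rw [cardset (centralizer {f g0}) (zpowers g0 : Set G) ?_]
    · exact Nat.card_zpowers g0
    · ext k
      constructor
      · intro hk
        refine ⟨f.symm k, ?_, by simp⟩
        show f.symm k ∈ zpowers g0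
        rw [← hC, hf, Equiv.apply_symm_apply]
        exact (mem_cent.1 hk).symm
      · rintro ⟨z, hz, rfl⟩
        exact mem_cent.2 ((hf _ _).1 ((hC z).2 hz)).symm
  rw [Set.ncard_union_eq (hdisj p hp hp0)] at c1
  rw [Set.ncard_union_eq (hdisj q hq hq0)] at c2
  rw [Set.ncard_union_eq ((hdisj p hp hp0).mono_left (by
    rw [coe_inf]; exact Set.inter_subset_left))] at c3
  have d1 : Nat.card (A p ⊓ A q : Subgroup K) ∣ Nat.card (A p) := card_dvd_of_le inf_le_left
  have d2 : Nat.card (A p ⊓ A q : Subgroup K) ∣ Nat.card (A q) := card_dvd_of_le inf_le_right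
  have d3 : Nat.card (A p ⊓ A q : Subgroup K) ∣ m := by
    rw [← c4]
    exact card_dvd_of_le (inf_le_left.trans inf_le_left)
  rw [c1, c3] at d1
  rw [c2, c3] at d2
  rw [c3] at d3
  have e1 : p * ((zpowers (g0 ^ p) : Set G).ncard) = m := hcard p hp hp0
  have e2 : q * ((zpowers (g0 ^ q) : Set G).ncard) = m := hcard q hq hq0
  have e3 : 0 < ((zpowers (g0 ^ p) ⊓ zpowers (g0 ^ q) : Subgroup G) : Set G).ncard :=
    (Set.ncard_pos (Set.toFinite _)).2 ⟨1, one_mem _⟩
  have e4 : 0 < gens.ncard := (Set.ncard_pos (Set.toFinite _)).2 ⟨g0, hgens⟩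
  generalize (zpowers (g0 ^ p) : Set G).ncard = a at *
  generalize (zpowers (g0 ^ q) : Set G).ncard = b at *
  generalize ((zpowers (g0 ^ p) ⊓ zpowers (g0 ^ q) : Subgroup G) : Set G).ncard = t at *
  generalize gens.ncard = φ at *
  have key : ∀ (r c : ℕ), r * c = m → (t + φ) ∣ c + φ → (t + φ) ∣ r * t := by
    intro r c h1 h2
    have h3 : ((t + φ : ℕ) : ℤ) ∣ ((c + φ : ℕ) : ℤ) := by exact_mod_cast h2
    have h4 : ((t + φ : ℕ) : ℤ) ∣ ((m : ℕ) : ℤ) := by exact_mod_cast d3
    have h5 : ((t + φ : ℕ) : ℤ) ∣ ((r * t : ℕ) : ℤ) := by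
      have : ((r * t : ℕ) : ℤ) = (m : ℤ) - r * (((c + φ : ℕ) : ℤ) - ((t + φ : ℕ) : ℤ)) := by
        rw [← h1]; push_cast; ring
      rw [this]
      exact dvd_sub h4 (Dvd.dvd.mul_left (dvd_sub h3 (dvd_refl _)) _)
    exact_mod_cast h5
  have k1 := key p a e1 d1
  have k2 := key q b e2 d2
  have k3 := Nat.dvd_gcd k1 k2
  rw [Nat.gcd_mul_right, (Nat.coprime_primes hp hq).2 hpq, one_mul] at k3
  have := Nat.le_of_dvd e3 k3
  omega

/-- every element has at most one prime divisor of its order -/
def EPPO (G : Type) [Group G] : Prop :=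
  ∀ (g : G) (p q : ℕ), p.Prime → q.Prime → p ∣ orderOf g → q ∣ orderOf g → p = q

omit [Group K] [Finite K] in
theorem mem_zpowers_of_prime {a z : G} {p : ℕ} (hp : p.Prime) (ha : orderOf a = p)
    (hz : z ∈ zpowers a) (hz1 : z ≠ 1) : a ∈ zpowers z := by
  have hle : zpowers z ≤ zpowers a := zpowers_le.2 hz
  have hd := card_dvd_of_le hle
  rw [Nat.card_zpowers, Nat.card_zpowers, ha] at hd
  have h1 : orderOf z = p := by
    rcases (Nat.Prime.eq_one_or_self_of_dvd hp _ hd) with h | h
    · exact absurd (orderOf_eq_one_iff.1 h) hz1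
    · exact h
  have := eq_of_le_of_card_ge hle (by rw [Nat.card_zpowers, Nat.card_zpowers, ha, h1])
  rw [this]; exact mem_zpowers a

theorem exists_prime_elt (x : G) (hx : x ≠ 1) :
    ∃ p : ℕ, p.Prime ∧ p ∣ orderOf x ∧ ∃ a ∈ zpowers x, orderOf a = p := by
  have h1 : orderOf x ≠ 1 := fun h => hx (orderOf_eq_one_iff.1 h)
  have hd := Nat.minFac_dvd (orderOf x)
  exact ⟨_, Nat.minFac_prime h1, hd, x ^ (orderOf x / (orderOf x).minFac),
    npow_mem_zpowers _ _, orderOf_pow_orderOf_div (orderOf_pos x).ne' hd⟩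

theorem inner_lem (hE : EPPO G) {x a w : G} {p : ℕ} (hp : p.Prime) (ha : a ∈ zpowers x)
    (hap : orderOf a = p) (hw : w ∈ zpowers x) (hw1 : w ≠ 1) : a ∈ zpowers w := by
  have hpx : p ∣ orderOf x := by
    have := card_dvd_of_le (zpowers_le.2 ha)
    rwa [Nat.card_zpowers, Nat.card_zpowers, hap] at this
  obtain ⟨q, hq, hqw, b, hb, hbq⟩ := exists_prime_elt w hw1
  have hwx := card_dvd_of_le (zpowers_le.2 hw)
  rw [Nat.card_zpowers, Nat.card_zpowers] at hwx
  have hqp : q = p := hE x q p hq hp (hqw.trans hwx) hpx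
  subst hqp
  have hbx : b ∈ zpowers x := (zpowers_le.2 hw) hb
  set c := x ^ (orderOf x / q) with hc
  have hco : orderOf c = q := orderOf_pow_orderOf_div (orderOf_pos x).ne' hpx
  have hmem : ∀ z ∈ zpowers x, orderOf z = q → z ∈ zpowers c := by
    intro z hz hzo
    obtain ⟨i, rfl⟩ := (mem_powers_iff_mem_zpowers.2 hz : z ∈ Submonoid.powers x)
    have h1 : x ^ (i * q) = 1 := by
      rw [pow_mul, ← hzo]; exact pow_orderOf_eq_one _
    have h2 : orderOf x ∣ i * q := orderOf_dvd_of_pow_eq_one h1
    have h3 : orderOf x / q ∣ i := by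
      obtain ⟨k, hk⟩ := hpx
      rw [hk, Nat.mul_div_cancel_left _ hq.pos]
      rw [hk, mul_comm i q] at h2
      exact Nat.dvd_of_mul_dvd_mul_left hq.pos h2
    obtain ⟨k, rfl⟩ := h3
    show x ^ (orderOf x / q * k) ∈ zpowers c
    rw [pow_mul]
    exact npow_mem_zpowers _ _
  have hb1 : b ≠ 1 := by
    rintro rfl
    rw [orderOf_one] at hbq
    exact hq.one_lt.ne hbq
  have h4 := hmem a ha hap
  have h5 := hmem b hbx hbq
  have h6 := mem_zpowers_of_prime hq hco h5 hb1
  exact (zpowers_le.2 hb) ((zpowers_le.2 h6) h4)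

/-- The property established for suitable elements of prime order. -/
def V (a : G) : Prop := ∀ w : G, w ≠ 1 → a * w = w * a → a ∈ zpowers w

theorem stepB (f : G ≃ K) (hf : ∀ x y, R x y ↔ f x * f y = f y * f x) (hE : EPPO G)
    (x : G) (hx : x ≠ 1) :
    ∃ p : ℕ, p.Prime ∧ ∃ a ∈ zpowers x, orderOf a = p ∧ V a := by
  classical
  by_cases hU : ∃ c : K, (∀ k, c * k = k * c) ∧ c ≠ f 1
  · obtain ⟨c, hc, hc1⟩ := hU
    have hx0 : f.symm c ≠ 1 := by
      intro h
      apply hc1
      rw [← h, Equiv.apply_symm_apply]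
    obtain ⟨p, hp, hpd, a, ha, hap⟩ := exists_prime_elt (f.symm c) hx0
    have hall : ∀ y : G, y ≠ 1 → a ∈ zpowers y := by
      intro y hy
      have hR : R (f.symm c) y := by
        rw [hf, Equiv.apply_symm_apply]; exact hc _
      rcases hR with h | h
      · exact (zpowers_le.2 h) ha
      · exact inner_lem hE hp ha hap h hy
    exact ⟨p, hp, a, hall x hx, hap, fun w hw _ => hall w hw⟩
  · push Not at hU
    have hf1 : f 1 = 1 := (hU 1 (fun k => by simp)).symm
    obtain ⟨p, hp, hpd, a, ha, hap⟩ := exists_prime_elt x hx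
    refine ⟨p, hp, a, ha, hap, ?_⟩
    have hFp : Fact p.Prime := ⟨hp⟩
    let S : Set G := {z | R z a}
    have hS : ∀ z ∈ S, z ≠ 1 → a ∈ zpowers z := by
      rintro z (h | h) hz
      · exact mem_zpowers_of_prime hp hap h hz
      · exact h
    have hAS : ((centralizer {f a} : Subgroup K) : Set K) = f '' S := by
      ext k
      constructor
      · intro hk
        refine ⟨f.symm k, ?_, by simp⟩
        show R (f.symm k) a
        rw [hf, Equiv.apply_symm_apply]
        exact (mem_cent.1 hk).symm
      · rintro ⟨z, hz, rfl⟩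
        exact mem_cent.2 ((hf _ _).1 hz).symm
    have hcardA : Nat.card (centralizer {f a} : Subgroup K) = S.ncard := by
      have : Nat.card (centralizer {f a} : Subgroup K) =
        ((centralizer {f a} : Subgroup K) : Set K).ncard := rfl
      rw [this, hAS, Set.ncard_image_of_injective _ f.injective]
    have hT : ∀ u : K, u ∈ (centralizer {f a} : Subgroup K) → u ≠ 1 →
        (centralizer {u} : Subgroup K) ≤ centralizer {f a} := by
      intro u hu hu1 v hv
      have hu' : u ∈ f '' S := by rw [← hAS]; exact hu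
      obtain ⟨z, hz, rfl⟩ := hu'
      have hz1 : z ≠ 1 := by
        rintro rfl
        exact hu1 hf1
      have haz := hS z hz hz1
      have hR : R (f.symm v) z := by
        rw [hf, Equiv.apply_symm_apply]
        exact (mem_cent.1 hv).symm
      have : f.symm v ∈ S := by
        show R _ a
        rcases hR with h | h
        · by_cases h1 : f.symm v = 1
          · rw [h1]; exact R_one a
          · exact Or.inr (inner_lem hE hp haz hap h h1)
        · exact Or.inr ((zpowers_le.2 h) haz)
      have h2 : v ∈ f '' S := ⟨_, this, by simp⟩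
      rw [← hAS] at h2
      exact h2
    have ha1 : a ≠ 1 := by
      rintro rfl
      rw [orderOf_one] at hap
      exact hp.one_lt.ne hap
    have hclosed : ∀ z ∈ S, z * a ∈ S := by
      intro z hz
      by_cases hz1 : z = 1
      · rw [hz1, one_mul]; exact Or.inl (mem_zpowers a)
      · have haz := hS z hz hz1
        by_cases h1 : z * a = 1
        · rw [h1]; exact R_one a
        · exact Or.inr (inner_lem hE hp haz hap (mul_mem (mem_zpowers z) haz) h1)
    have hpS : p ∣ S.ncard := by
      have : Fintype S := Fintype.ofFinite _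
      let F : Function.End S := fun z => ⟨z.1 * a, hclosed z.1 z.2⟩
      have hFn : ∀ (n : ℕ) (z : S), ((F ^ n) z).1 = z.1 * a ^ n := by
        intro n
        induction n with
        | zero => intro z; rw [pow_zero, pow_zero, mul_one]; rfl
        | succ n ih =>
          intro z
          rw [pow_succ]
          show ((F ^ n) (F z)).1 = _
          rw [ih, pow_succ']
          show z.1 * a * a ^ n = _
          rw [mul_assoc]
      have hF : F ^ p ^ 1 = 1 := by
        funext z
        apply Subtype.ext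
        rw [hFn, pow_one, ← hap, pow_orderOf_eq_one, mul_one]
        rfl
      have h1 := Equiv.Perm.card_fixedPoints_modEq hF
      have h2 : Fintype.card (Function.fixedPoints F) = 0 := by
        rw [Fintype.card_eq_zero_iff]
        constructor
        rintro ⟨z, hz⟩
        have h3 : F z = z := hz
        have h4 := congrArg Subtype.val h3
        have h5 : z.1 * a = z.1 := h4
        exact ha1 (by simpa using h5)
      rw [h2] at h1
      have h3 : Fintype.card S = S.ncard := by
        rw [← Nat.card_eq_fintype_card]; rfl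
      rw [← h3]
      exact (Nat.modEq_zero_iff_dvd).1 h1
    obtain ⟨u, hu⟩ := exists_prime_orderOf_dvd_card' (G := (centralizer {f a} : Subgroup K)) p
      (by rw [hcardA]; exact hpS)
    have huo : orderOf (u : K) = p := by rw [Subgroup.orderOf_coe]; exact hu
    have hu1 : (u : K) ≠ 1 := by
      intro h
      rw [h, orderOf_one] at huo
      exact hp.one_lt.ne huo
    have hup : IsPGroup p (zpowers (u : K)) := by
      apply IsPGroup.of_card (n := 1)
      rw [Nat.card_zpowers, huo, pow_one]
    obtain ⟨P, hP⟩ := hup.exists_le_sylow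
    have huP : (u : K) ∈ (P : Subgroup K) := hP (mem_zpowers _)
    have hnt : Nontrivial (P : Subgroup K) := by
      refine ⟨⟨⟨u, huP⟩, 1, fun h => hu1 (congrArg Subtype.val h)⟩⟩
    have hcn := IsPGroup.center_nontrivial (P.2 : IsPGroup p (P : Subgroup K))
    obtain ⟨c, hc⟩ := exists_ne (1 : Subgroup.center (P : Subgroup K))
    have hcc : ∀ k ∈ (P : Subgroup K), ((c : (P : Subgroup K)) : K) * k =
        k * ((c : (P : Subgroup K)) : K) := by
      intro k hk
      have := (Subgroup.mem_center_iff.1 c.2) ⟨k, hk⟩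
      exact (congrArg Subtype.val this).symm
    have hc1 : ((c : (P : Subgroup K)) : K) ≠ 1 := by
      intro h
      apply hc
      apply Subtype.ext
      exact Subtype.ext h
    have hcA : ((c : (P : Subgroup K)) : K) ∈ (centralizer {f a} : Subgroup K) :=
      hT u u.2 hu1 (mem_cent.2 (hcc u huP).symm)
    have hPA : (P : Subgroup K) ≤ centralizer {f a} := by
      intro k hk
      exact hT _ hcA hc1 (mem_cent.2 (hcc k hk))
    have hPcard : Nat.card (P : Subgroup K) ≤ S.ncard := by
      rw [← hcardA]; exact card_le_of_le hPA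
    -- the centralizer of `a` in `G`
    have hCp : IsPGroup p (centralizer {a} : Subgroup G) := by
      rw [IsPGroup.iff_orderOf]
      rintro ⟨w, hw⟩
      have hwa : a * w = w * a := mem_cent.1 hw
      refine ⟨(orderOf w).primeFactorsList.length, ?_⟩
      · rw [Subgroup.orderOf_mk]
        refine Nat.eq_prime_pow_of_unique_prime_dvd (orderOf_pos w).ne' ?_
        intro q hq hqw
        by_contra hqp
        have h1 : orderOf (w ^ (orderOf w / q)) = q :=
          orderOf_pow_orderOf_div (orderOf_pos w).ne' hqw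
        have h2 : Commute (w ^ (orderOf w / q)) a := Commute.pow_left (show w * a = a * w from hwa.symm) _
        have h3 := h2.orderOf_mul_eq_mul_orderOf_of_coprime (by
          rw [h1, hap]; exact (Nat.coprime_primes hq hp).2 hqp)
        rw [h1, hap] at h3
        exact hqp (hE _ q p hq hp (by rw [h3]; exact dvd_mul_right _ _)
          (by rw [h3]; exact dvd_mul_left _ _))
    obtain ⟨Q, hQ⟩ := hCp.exists_le_sylow
    have hQP : Nat.card (Q : Subgroup G) = Nat.card (P : Subgroup K) := by
      rw [Sylow.card_eq_multiplicity, Sylow.card_eq_multiplicity, Nat.card_congr f]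
    have hSC : S ⊆ ((centralizer {a} : Subgroup G) : Set G) := by
      intro z hz
      exact mem_cent.2 (R_comm hz).symm
    have hEq : S = ((centralizer {a} : Subgroup G) : Set G) := by
      apply Set.eq_of_subset_of_ncard_le hSC
      have h1 : ((centralizer {a} : Subgroup G) : Set G).ncard =
        Nat.card (centralizer {a} : Subgroup G) := rfl
      rw [h1]
      exact ((card_le_of_le hQ).trans (le_of_eq hQP)).trans hPcard
    intro w hw hwa
    have h1 : w ∈ S := by
      rw [hEq]
      exact mem_cent.2 hwa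
    exact hS w h1 hw

theorem final (hE : EPPO G) {x a : G} {p : ℕ} (hp : p.Prime) (ha : a ∈ zpowers x)
    (hap : orderOf a = p) (hV : V a) :
    ∀ (n : ℕ) (y : G), orderOf y = n → orderOf y ≤ orderOf x → x * y = y * x →
      y ∈ zpowers x := by
  intro n
  induction n using Nat.strong_induction_on with
  | _ n ih =>
  intro y hyn hyx hxy
  by_cases hy1 : y = 1
  · rw [hy1]; exact one_mem _
  have ha1 : a ≠ 1 := by
    rintro rfl
    rw [orderOf_one] at hap
    exact hp.one_lt.ne hap
  have hpx : p ∣ orderOf x := by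
    have := card_dvd_of_le (zpowers_le.2 ha)
    rwa [Nat.card_zpowers, Nat.card_zpowers, hap] at this
  have hcomm : ∀ y : G, x * y = y * x → a * y = y * a := by
    intro y hy
    obtain ⟨k, rfl⟩ := mem_zpowers_iff.1 ha
    exact (Commute.zpow_left (show Commute x y from hy) k)
  have hay : a ∈ zpowers y := hV y hy1 (hcomm y hxy)
  have hpy : p ∣ orderOf y := by
    have := card_dvd_of_le (zpowers_le.2 hay)
    rwa [Nat.card_zpowers, Nat.card_zpowers, hap] at this
  have hyp : orderOf (y ^ p) = orderOf y / p := by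
    rw [orderOf_pow' _ hp.ne_zero, Nat.gcd_eq_right hpy]
  have hlt : orderOf (y ^ p) < orderOf y := by
    rw [hyp]; exact Nat.div_lt_self (orderOf_pos y) hp.one_lt
  have hxyp : Commute x (y ^ p) := Commute.pow_right (show Commute x y from hxy) p
  have h1 := ih _ (hyn ▸ hlt) (y ^ p) rfl (hlt.le.trans hyx) hxyp
  obtain ⟨m, hm⟩ := (mem_powers_iff_mem_zpowers.2 h1 : y ^ p ∈ Submonoid.powers x)
  have hm : x ^ m = y ^ p := hm
  have hpm : p ∣ m := by
    by_contra hnd
    have hcop : (orderOf x).Coprime m := by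
      rw [Nat.coprime_comm]
      apply Nat.Coprime.symm
      apply Nat.Coprime.symm
      apply Nat.coprime_of_dvd
      intro q hq hqm hqx
      have : q = p := hE x q p hq hp hqx hpx
      exact hnd (this ▸ hqm)
    have := hcop.orderOf_pow
    rw [hm] at this
    omega
  obtain ⟨m', rfl⟩ := hpm
  have hcx : Commute y (x ^ m') := Commute.pow_right (show Commute y x from hxy.symm) m'
  set w := y * (x ^ m')⁻¹ with hw
  have hwp : w ^ p = 1 := by
    rw [hw, (hcx.inv_right).mul_pow, ← hm, inv_pow, ← pow_mul, mul_comm m' p, mul_inv_cancel]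
  have hyw : y = w * x ^ m' := by rw [hw]; simp
  by_cases hw1 : w = 1
  · rw [hyw, hw1, one_mul]; exact npow_mem_zpowers _ _
  · have hwo : orderOf w = p := by
      have := orderOf_dvd_of_pow_eq_one hwp
      rcases (Nat.Prime.eq_one_or_self_of_dvd hp _ this) with h | h
      · exact absurd (orderOf_eq_one_iff.1 h) hw1
      · exact h
    have hxw : x * w = w * x := by
      have : Commute x w := by
        rw [hw]
        exact Commute.mul_right hxy ((Commute.pow_right (Commute.refl x) m').inv_right)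
      exact this
    have haw := hV w hw1 (hcomm w hxw)
    have hwa := mem_zpowers_of_prime hp hwo haw ha1
    rw [hyw]
    exact mul_mem ((zpowers_le.2 ha) hwa) (npow_mem_zpowers _ _)

theorem R_of_comm (f : G ≃ K) (hf : ∀ x y, R x y ↔ f x * f y = f y * f x)
    (x y : G) (hxy : x * y = y * x) : R x y := by
  have hE : EPPO G := fun g p q hp hq h1 h2 => stepA f hf g p q hp hq h1 h2
  by_cases hx : x = 1
  · rw [hx]; exact R_one y
  by_cases hy : y = 1
  · rw [hy]; exact (R_one x).symm
  rcases le_total (orderOf y) (orderOf x) with h | h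
  · obtain ⟨p, hp, a, ha, hap, hV⟩ := stepB f hf hE x hx
    exact Or.inr (final hE hp ha hap hV _ y rfl h hxy)
  · obtain ⟨p, hp, a, ha, hap, hV⟩ := stepB f hf hE y hy
    exact Or.inl (final hE hp ha hap hV _ x rfl h hxy.symm)

end

theorem R_iff {G : Type} [Group G] (x y : G) :
    R x y ↔ ((∃ m : ℤ, x = y ^ m) ∨ (∃ m : ℤ, y = x ^ m)) := by
  unfold R
  rw [mem_zpowers_iff, mem_zpowers_iff]
  constructor
  · rintro (⟨m, h⟩ | ⟨m, h⟩)
    · exact Or.inl ⟨m, h.symm⟩
    · exact Or.inr ⟨m, h.symm⟩
  · rintro (⟨m, h⟩ | ⟨m, h⟩)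
    · exact Or.inl ⟨m, h.symm⟩
    · exact Or.inr ⟨m, h.symm⟩

/-- **Answer to Q1 (no).**  If the power graph of a finite group `G₁` is isomorphic to the commuting
graph of a finite group `G₂`, then `Pow(G₁) = Com(G₁)`. -/
theorem result : ∀ (G₁ G₂ : Type) [Group G₁] [Group G₂] [Finite G₁] [Finite G₂],
    Nonempty (powGraph G₁ ≃g comGraph G₂) → powGraph G₁ = comGraph G₁ := by
  rintro G₁ G₂ _ _ _ _ ⟨φ⟩
  have hf : ∀ x y : G₁, R x y ↔ φ.toEquiv x * φ.toEquiv y = φ.toEquiv y * φ.toEquiv x := by
    intro x y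
    by_cases hxy : x = y
    · subst hxy
      exact ⟨fun _ => rfl, fun _ => Or.inl (mem_zpowers x)⟩
    · have h := φ.map_adj_iff (v := x) (w := y)
      rw [R_iff]
      constructor
      · intro h1
        exact (h.2 ⟨hxy, h1⟩).2
      · intro h1
        exact (h.1 ⟨fun e => hxy (φ.injective e), h1⟩).2
  ext x y
  constructor
  · rintro ⟨h1, h2⟩
    exact ⟨h1, R_comm ((R_iff x y).2 h2)⟩
  · rintro ⟨h1, h2⟩
    exact ⟨h1, (R_iff x y).1 (R_of_comm φ.toEquiv hf x y h2)⟩

end Pool.Agent.Results.MP_2b7cf0_al.PowerCommuting
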